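import Mathlib
import Pool.Agent.H362Z.UN

set_option autoImplicit false

open MeasureTheory

namespace Pool.Agent.Results.MP_4d4d44_lc.ZFCExample

/-- `F` is a countable union of closed sets. -/
def IsFsigma (F : Set (ℕ → Bool)) : Prop :=
  ∃ K : ℕ → Set (ℕ → Bool), (∀ n, IsClosed (K n)) ∧ F = ⋃ n, K n

/-- `μ` is a finite non-atomic measure on the Borel sets of the Cantor space. -/
def FiniteNonAtomic (μ : @Measure (ℕ → Bool) (borel (ℕ → Bool))) : Prop :=
  μ Set.univ < ⊤ ∧ ∀ x, μ {x} = 0

/-- `A` is universally null: it has outer measure zero for every finite non-atomic Borel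
measure. (For a set that is not measurable, `μ A` is the outer measure of `A`.) -/
def UniversallyNull (A : Set (ℕ → Bool)) : Prop :=
  ∀ μ : @Measure (ℕ → Bool) (borel (ℕ → Bool)), FiniteNonAtomic μ → μ A = 0

/-- `A` is countably perfectly null: for every finite non-atomic Borel measure it is covered by
an `F_σ` set of measure zero. -/
def CountablyPerfectlyNull (A : Set (ℕ → Bool)) : Prop :=
  ∀ μ : @Measure (ℕ → Bool) (borel (ℕ → Bool)), FiniteNonAtomic μ →
    ∃ F : Set (ℕ → Bool), IsFsigma F ∧ A ⊆ F ∧ μ F = 0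

/-- There is a universally null subset of the Cantor space that is not countably perfectly
null. -/
theorem result : ∃ A : Set (ℕ → Bool), UniversallyNull A ∧ ¬ CountablyPerfectlyNull A := by
  obtain ⟨E, h1, μ, hμ, hμ0, h2⟩ := Pool.Agent.H362Z.UN.main
  have hb : borel (ℕ → Bool) = MeasurableSpace.pi := BorelSpace.measurable_eq.symm
  unfold UniversallyNull CountablyPerfectlyNull FiniteNonAtomic
  rw [hb]
  refine ⟨E, fun ν hν => h1 ν ⟨hν.1⟩ hν.2, fun h => ?_⟩
  obtain ⟨F, ⟨K, hK, rfl⟩, hE, hF⟩ := h μ ⟨hμ.1, hμ0⟩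
  exact h2 K hK hE hF

end Pool.Agent.Results.MP_4d4d44_lc.ZFCExample
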